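import Mathlib
import Pool.Agent.Lib.helper12.CFDim

set_option maxHeartbeats 200000

namespace Pool.Agent.H.MP_f5ee21_nt

open Matrix Pool.Agent.Lib.helper12 Filter Topology

def St (p q : ℕ) : Prop :=
  (p % 8 = 0 ∧ q % 8 = 1) ∨ (p % 8 = 1 ∧ q % 8 = 1) ∨ (p % 8 = 1 ∧ q % 8 = 2) ∨
  (p % 8 = 2 ∧ q % 8 = 3) ∨ (p % 8 = 3 ∧ q % 8 = 5) ∨ (p % 8 = 5 ∧ q % 8 = 0) ∨
  (p % 8 = 0 ∧ q % 8 = 5) ∨ (p % 8 = 5 ∧ q % 8 = 5) ∨ (p % 8 = 5 ∧ q % 8 = 2) ∨
  (p % 8 = 2 ∧ q % 8 = 7) ∨ (p % 8 = 7 ∧ q % 8 = 1) ∨ (p % 8 = 1 ∧ q % 8 = 0)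

def Inv (p q : ℕ) : Prop := St p q ∧
  (q % 2 = 1 → jacobiSym (2 * p) q = 1) ∧ (p % 2 = 1 → jacobiSym (2 * q) p = 1)

lemma chi8 (n : ℕ) (hn : n % 2 = 1) :
    jacobiSym 2 n = if n % 8 = 1 ∨ n % 8 = 7 then 1 else -1 := by
  rw [jacobiSym.at_two (Nat.odd_iff.2 hn), ZMod.χ₈_nat_eq_if_mod_eight, if_neg (by omega)]

lemma chi4 (n : ℕ) (hn : n % 2 = 1) :
    jacobiSym (-1) n = if n % 4 = 1 then 1 else -1 := by
  rw [jacobiSym.at_neg_one (Nat.odd_iff.2 hn), ZMod.χ₄_nat_eq_if_mod_four, if_neg (by omega)]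

lemma inv_step (p q x : ℕ) (hx : x % 8 = 1) (h : Inv p q) : Inv q (p + x * q) := by
  obtain ⟨k, rfl⟩ : ∃ k, x = 1 + 8 * k := ⟨x / 8, by omega⟩
  obtain ⟨hs, h1, h2⟩ := h
  have e : p + (1 + 8 * k) * q = (p + q) + 8 * (k * q) := by ring
  refine ⟨?_, ?_, ?_⟩
  · rw [e]
    unfold St at hs ⊢
    rw [Nat.add_mul_mod_self_left, Nat.add_mod]
    rcases hs with h | h | h | h | h | h | h | h | h | h | h | h <;> simp [h.1, h.2]
  · intro hn
    have ho1 : Odd (p + (1 + 8 * k) * q) := Nat.odd_iff.2 hn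
    have hm : (p + q) % 2 = 1 := by rw [e] at hn; omega
    have ho2 : Odd (p + q) := Nat.odd_iff.2 hm
    have e1 : jacobiSym (2 * q) (p + (1 + 8 * k) * q) = jacobiSym (2 * q) (p + q) := by
      have a1 := jacobiSym.mod_right' (2 * q) ho1
      have a2 := jacobiSym.mod_right' (2 * q) ho2
      push_cast at a1 a2
      rw [a1, a2, show p + (1 + 8 * k) * q = (p + q) + (4 * (2 * q)) * k by ring,
        Nat.add_mul_mod_self_left]
    rw [e1]
    rcases Nat.mod_two_eq_zero_or_one q with hq | hq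
    · have hp : p % 2 = 1 := by omega
      have h3 := h2 hp
      have e2 : jacobiSym (2 * q) (p + q) = jacobiSym (-1 * 2 * (p : ℤ)) (p + q) := by
        apply jacobiSym.mod_left'
        push_cast
        exact Int.ModEq.symm ((Int.modEq_iff_dvd).2 ⟨2, by ring⟩)
      have e3 := jacobiSym.quadratic_reciprocity_if hp hm
      have e4 : jacobiSym ((p + q : ℕ) : ℤ) p = jacobiSym q p := by
        apply jacobiSym.mod_left'
        push_cast
        exact (Int.modEq_iff_dvd).2 ⟨-1, by ring⟩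
      rw [e2, jacobiSym.mul_left, jacobiSym.mul_left, ← e3, e4, chi8 _ hm, chi4 _ hm]
      rw [jacobiSym.mul_left, chi8 _ hp] at h3
      have hc : (p % 8 = 1 ∧ (p + q) % 8 = 3) ∨ (p % 8 = 5 ∧ (p + q) % 8 = 5) ∨
          (p % 8 = 5 ∧ (p + q) % 8 = 7) ∨ (p % 8 = 1 ∧ (p + q) % 8 = 1) := by
        unfold St at hs
        rw [Nat.add_mod p q 8]
        rcases hs with h | h | h | h | h | h | h | h | h | h | h | h <;>
          first | (exfalso; omega) | simp [h.1, h.2]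
      clear hs e e1 e2 e3 e4 h1 h2 hn ho1 ho2 hx
      generalize jacobiSym q p = J at h3 ⊢
      rcases hc with ⟨c1, c2⟩ | ⟨c1, c2⟩ | ⟨c1, c2⟩ | ⟨c1, c2⟩
      · rw [if_pos (by omega)] at h3
        rw [if_neg (by omega), if_neg (by omega), if_neg (by omega)]; linarith
      · rw [if_neg (by omega)] at h3
        rw [if_pos (by omega), if_neg (by omega), if_neg (by omega)]; linarith
      · rw [if_neg (by omega)] at h3
        rw [if_neg (by omega), if_pos (by omega), if_neg (by omega)]; linarith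
      · rw [if_pos (by omega)] at h3
        rw [if_pos (by omega), if_pos (by omega), if_neg (by omega)]; linarith
    · have hp : p % 2 = 0 := by omega
      have h3 := h1 hq
      have e3 := jacobiSym.quadratic_reciprocity_if hq hm
      have e4 : jacobiSym ((p + q : ℕ) : ℤ) q = jacobiSym p q := by
        apply jacobiSym.mod_left'
        push_cast
        exact (Int.modEq_iff_dvd).2 ⟨-1, by ring⟩
      rw [jacobiSym.mul_left, ← e3, e4, chi8 _ hm]
      rw [jacobiSym.mul_left, chi8 _ hq] at h3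
      have hc : (q % 8 = 1 ∧ (p + q) % 8 = 1) ∨ (q % 8 = 3 ∧ (p + q) % 8 = 5) ∨
          (q % 8 = 5 ∧ (p + q) % 8 = 5) ∨ (q % 8 = 7 ∧ (p + q) % 8 = 1) := by
        unfold St at hs
        rw [Nat.add_mod p q 8]
        rcases hs with h | h | h | h | h | h | h | h | h | h | h | h <;>
          first | (exfalso; omega) | simp [h.1, h.2]
      clear hs e e1 e3 e4 h1 h2 hn ho1 ho2 hx
      generalize jacobiSym p q = J at h3 ⊢
      rcases hc with ⟨c1, c2⟩ | ⟨c1, c2⟩ | ⟨c1, c2⟩ | ⟨c1, c2⟩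
      · rw [if_pos (by omega)] at h3
        rw [if_pos (by omega), if_neg (by omega)]; linarith
      · rw [if_neg (by omega)] at h3
        rw [if_neg (by omega), if_neg (by omega)]; linarith
      · rw [if_neg (by omega)] at h3
        rw [if_neg (by omega), if_neg (by omega)]; linarith
      · rw [if_pos (by omega)] at h3
        rw [if_pos (by omega), if_neg (by omega)]; linarith
  · intro hq
    rw [← h1 hq]
    apply jacobiSym.mod_left'
    push_cast
    rw [show 2 * ((p : ℤ) + (1 + 8 * k) * q) = 2 * p + q * (2 * (1 + 8 * k)) by ring,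
      Int.add_mul_emod_self_left]

lemma word_inv (l : List ℕ) (hl : ∀ a ∈ l, a % 8 = 1) : ∃ a b c d : ℕ,
    (l.map (fun b : ℕ => (!![(b : ℤ), 1; 1, 0] : Matrix (Fin 2) (Fin 2) ℤ))).prod =
      !![(a : ℤ), b; c, d] ∧ Inv d b ∧ a % 8 = (b + d) % 8 ∧ c % 8 = b % 8 ∧
      (a : ℤ) * d - b * c = (-1) ^ l.length := by
  induction l with
  | nil =>
    refine ⟨1, 0, 0, 1, ?_, ⟨by simp [St], by simp, by simp⟩, by simp, by simp, by simp⟩
    ext i j; fin_cases i <;> fin_cases j <;> simp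
  | cons x l ih =>
    obtain ⟨a, b, c, d, h1, h2, h3, h4, h5⟩ := ih (fun a ha => hl a (by simp [ha]))
    have hx := hl x (by simp)
    obtain ⟨k, rfl⟩ : ∃ k, x = 1 + 8 * k := ⟨x / 8, by omega⟩
    refine ⟨c + (1 + 8 * k) * a, d + (1 + 8 * k) * b, a, b, ?_, inv_step d b _ hx h2, ?_, ?_, ?_⟩
    · rw [List.map_cons, List.prod_cons, h1]
      ext i j
      fin_cases i <;> fin_cases j <;> simp [Matrix.mul_apply, Fin.sum_univ_two] <;> ring
    · have e1 : c + (1 + 8 * k) * a = c + a + 8 * (k * a) := by ring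
      have e2 : d + (1 + 8 * k) * b = d + b + 8 * (k * b) := by ring
      omega
    · have e2 : d + (1 + 8 * k) * b = d + b + 8 * (k * b) := by ring
      omega
    · rw [List.length_cons, pow_succ, ← h5]
      push_cast
      ring

lemma jac_nonneg (d b j : ℕ) (hb : b ≠ 0) (hj : 1 ≤ j)
    (h : (b : ℤ) ∣ d * (5 ^ j) ^ 2 - (d + 1) ^ 2) : 0 ≤ jacobiSym d b := by
  obtain ⟨e, c, hc, rfl⟩ := Nat.exists_eq_pow_mul_and_not_dvd hb 5 (by norm_num)
  have hc0 : c ≠ 0 := by rintro rfl; simp at hc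
  rw [jacobiSym.mul_right' _ (by positivity) hc0, jacobiSym.pow_right]
  apply mul_nonneg
  · rcases Nat.eq_zero_or_pos e with rfl | he
    · simp
    · apply pow_nonneg
      have h5 : (5 : ℤ) ∣ d * (5 ^ j) ^ 2 - (d + 1) ^ 2 := by
        refine Dvd.dvd.trans ?_ h
        push_cast
        exact Dvd.dvd.mul_right (dvd_pow_self 5 he.ne') _
      have h6 : (5 : ℤ) ∣ d * (5 ^ j) ^ 2 :=
        Dvd.dvd.mul_left (dvd_pow (dvd_pow_self 5 (by omega)) (by norm_num)) _
      have h7 : (5 : ℤ) ∣ (d + 1) ^ 2 := by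
        have := dvd_sub h6 h5
        simpa using this
      have h8 : (5 : ℤ) ∣ d + 1 := Int.Prime.dvd_pow' (by norm_num : Nat.Prime 5) h7
      have h9 : jacobiSym d 5 = jacobiSym (2 ^ 2) 5 := by
        apply jacobiSym.mod_left'
        push_cast
        omega
      rw [h9, jacobiSym.pow_left]
      positivity
  · have h1 : (c : ℤ) ∣ d * (5 ^ j) ^ 2 - (d + 1) ^ 2 := by
      refine Dvd.dvd.trans ?_ h
      push_cast
      exact Dvd.intro_left _ rfl
    have h2 : jacobiSym (d * (5 ^ j) ^ 2) c = jacobiSym ((d + 1) ^ 2) c := by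
      apply jacobiSym.mod_left'
      exact Int.ModEq.symm ((Int.modEq_iff_dvd).2 h1)
    have h3 : Int.gcd (5 ^ j) c = 1 := by
      have : Nat.Coprime (5 ^ j) c :=
        Nat.Coprime.pow_left j ((Nat.Prime.coprime_iff_not_dvd (by norm_num)).2 hc)
      have h4 : ((5 : ℤ) ^ j) = ((5 ^ j : ℕ) : ℤ) := by push_cast; rfl
      rw [h4, Int.gcd_natCast_natCast]
      exact this
    rw [jacobiSym.mul_left, jacobiSym.sq_one' h3, mul_one, jacobiSym.pow_left] at h2
    rw [h2]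
    positivity

lemma pow25 (j : ℕ) : ((5 : ℤ) ^ j) ^ 2 % 8 = 1 := by
  induction j with
  | zero => simp
  | succ j ih =>
    rw [show ((5 : ℤ) ^ (j + 1)) ^ 2 = 25 * (5 ^ j) ^ 2 by ring]
    omega

lemma not_trace (l : List ℕ) (hl : ∀ a ∈ l, a % 8 = 1) (he : Even l.length) (j : ℕ) (hj : 1 ≤ j) :
    Matrix.trace (l.map (fun b : ℕ => (!![(b : ℤ), 1; 1, 0] : Matrix (Fin 2) (Fin 2) ℤ))).prod
      ≠ (5 ^ j) ^ 2 - 2 := by
  obtain ⟨a, b, c, d, h1, ⟨hs, h2, _⟩, h3, h4, h5⟩ := word_inv l hl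
  rw [h1, Matrix.trace_fin_two_of]
  intro ht
  rw [he.neg_one_pow] at h5
  have h6 := pow25 j
  have h7 : (a + d) % 8 = 7 := by omega
  have h8 : (a * d) % 8 = (b * c + 1) % 8 := by
    have : a * d = b * c + 1 := by
      have : (a : ℤ) * d = b * c + 1 := by linarith
      exact_mod_cast this
    rw [this]
  have h9 : b % 8 = 3 ∨ b % 8 = 5 := by
    by_contra hcon
    have hbd : b % 8 = 1 ∧ d % 8 = 7 := by
      unfold St at hs
      rcases hs with h | h | h | h | h | h | h | h | h | h | h | h <;> omega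
    obtain ⟨hb, hd⟩ := hbd
    have ha : a % 8 = 0 := by omega
    rw [Nat.mul_mod, Nat.add_mod, Nat.mul_mod b c, h4, ha, hb] at h8
    simp at h8
  have hb2 : b % 2 = 1 := by omega
  have h10 := h2 hb2
  rw [jacobiSym.mul_left, chi8 _ hb2, if_neg (by omega)] at h10
  have h11 := jac_nonneg d b j (by omega) hj ⟨c, by
    have : ((5 : ℤ) ^ j) ^ 2 = a + d + 2 := by linarith
    rw [this]
    linear_combination h5⟩
  linarith

lemma admissible (T : ℤ) (Q : ℤ) (hT : T % 8 = 7) (hQ : 1 ≤ Q) :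
    ∃ l : List ℕ, l ≠ [] ∧ Even l.length ∧ (∀ a ∈ l, a = 1 ∨ a = 1 + 8) ∧
      Matrix.trace (l.map (fun b : ℕ => (!![(b : ℤ), 1; 1, 0] : Matrix (Fin 2) (Fin 2) ℤ))).prod
        ≡ T [ZMOD Q] := by
  obtain ⟨Q, rfl⟩ : ∃ n : ℕ, Q = n := ⟨Q.toNat, by omega⟩
  have : NeZero Q := ⟨by omega⟩
  let g : ℕ → Matrix (Fin 2) (Fin 2) (ZMod Q) := fun a => !![(a : ZMod Q), 1; 1, 0]
  have hsim := simulate g 1 8 !![0, 1; 1, -1]
    (by ext i j; fin_cases i <;> fin_cases j <;> simp [g, Matrix.mul_apply, Fin.sum_univ_two])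
    (by ext i j; fin_cases i <;> fin_cases j <;> simp [g, Matrix.mul_apply, Fin.sum_univ_two])
    (by
      intro x; ext i j
      fin_cases i <;> fin_cases j <;> simp [g, Matrix.mul_apply, Fin.sum_univ_two]
      ring)
  obtain ⟨e, o, ho, hQe⟩ := Nat.exists_eq_two_pow_mul_odd (n := Q) (by omega)
  obtain ⟨t, ht⟩ : ∃ t, o ^ 2 = 1 + 8 * t := by
    obtain ⟨k, rfl⟩ := ho
    obtain ⟨m, hm⟩ := Nat.even_mul_succ_self k
    exact ⟨m, by nlinarith⟩
  have hcop : Nat.Coprime (2 * o ^ 2 + 1) Q := by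
    rw [hQe]
    apply Nat.Coprime.mul_right
    · apply Nat.Coprime.pow_right
      rw [Nat.coprime_two_right]
      exact ⟨o ^ 2, by ring⟩
    · rw [show 2 * o ^ 2 + 1 = 1 + o * (2 * o) by ring, Nat.coprime_add_mul_left_left]
      simp
  have hu : IsUnit ((2 * o ^ 2 + 1 : ℕ) : ZMod Q) := (ZMod.isUnit_iff_coprime _ _).2 hcop
  obtain ⟨w, hw⟩ := hu.exists_left_inv
  obtain ⟨z, hz⟩ : ∃ z : ℤ, T = 3 * o ^ 2 + 4 + 8 * z := by
    have h1 : (o : ℤ) ^ 2 = 1 + 8 * t := by exact_mod_cast ht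
    refine ⟨T / 8 - 3 * t, ?_⟩
    omega
  obtain ⟨l1, h1, h1', h1''⟩ := hsim ((z : ZMod Q) * w).val
  obtain ⟨l3, h3, h3', h3''⟩ := hsim t
  refine ⟨l1 ++ [1, 1] ++ l3, by simp, ?_, ?_, ?_⟩
  · simp only [List.length_append, List.length_cons, List.length_nil]
    obtain ⟨a, ha⟩ := h1
    obtain ⟨b, hb⟩ := h3
    exact ⟨a + b + 2, by omega⟩
  · intro a ha
    simp only [List.mem_append, List.mem_cons, List.not_mem_nil] at ha
    rcases ha with (h | h) | h
    · exact h1' a h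
    · left; tauto
    · exact h3' a h
  · rw [← ZMod.intCast_eq_intCast_iff]
    have key : ∀ l : List ℕ, (Int.castRingHom (ZMod Q)).mapMatrix
        (l.map (fun b : ℕ => (!![(b : ℤ), 1; 1, 0] : Matrix (Fin 2) (Fin 2) ℤ))).prod =
          (l.map g).prod := by
      intro l
      rw [map_list_prod, List.map_map]
      congr 1
      apply List.map_congr_left
      intro a _
      ext i j
      fin_cases i <;> fin_cases j <;> simp [g]
    have k1 := congrFun (congrFun (key (l1 ++ [1, 1] ++ l3)) 0) 0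
    have k2 := congrFun (congrFun (key (l1 ++ [1, 1] ++ l3)) 1) 1
    simp only [RingHom.mapMatrix_apply, Matrix.map_apply, eq_intCast] at k1 k2
    rw [Matrix.trace_fin_two, Int.cast_add, k1, k2]
    simp only [List.map_append, List.prod_append, h1'', h3'', List.map_cons, List.prod_cons,
      List.map_nil, List.prod_nil]
    rw [← ht]
    have hz' : (T : ZMod Q) = 3 * (o : ZMod Q) ^ 2 + 4 + 8 * z := by
      rw [hz]; push_cast; ring
    rw [hz']
    push_cast at hw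
    simp [g, Matrix.mul_apply, Fin.sum_univ_two]
    linear_combination (8 * (z : ZMod Q)) * hw

lemma conv (a : ℕ → ℕ) (ha : ∀ n, 1 ≤ a n) (y : ℕ → ℝ) (hy : ∀ n, 0 < y n ∧ y n < 1)
    (hy2 : ∀ n, y n * (a n + y (n + 1)) = 1) (n : ℕ) : ∃ P P' Q Q' : ℝ,
    (List.map (fun j : ℕ => (!![(a j : ℝ), 1; 1, 0] : Matrix (Fin 2) (Fin 2) ℝ))
      (List.range (n + 1))).prod = !![P, P'; Q, Q'] ∧ 1 ≤ Q ∧ 0 ≤ Q' ∧ Q' ≤ Q ∧ n + 1 ≤ Q + Q' ∧
      |P * Q' - P' * Q| = 1 ∧ (y 0)⁻¹ * (Q + Q' * y (n + 1)) = P + P' * y (n + 1) := by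
  induction n with
  | zero =>
    refine ⟨a 0, 1, 1, 0, by simp, le_refl _, le_refl _, by norm_num, by norm_num, by simp, ?_⟩
    rw [inv_eq_of_mul_eq_one_right (hy2 0)]
    ring
  | succ n ih =>
    obtain ⟨P, P', Q, Q', h1, h2, h3, h4, h5, h6, h7⟩ := ih
    have h8 : (1 : ℝ) ≤ a (n + 1) := by exact_mod_cast ha (n + 1)
    refine ⟨P * a (n + 1) + P', P, Q * a (n + 1) + Q', Q, ?_, by nlinarith, by linarith,
      by nlinarith, by push_cast; nlinarith, ?_, ?_⟩
    · rw [List.range_succ, List.map_append, List.prod_append, h1]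
      ext i j
      fin_cases i <;> fin_cases j <;> simp [Matrix.mul_apply, Fin.sum_univ_two]
    · rw [← h6, ← abs_neg]
      congr 1
      ring
    · have h9 := hy2 (n + 1)
      have h10 := (hy (n + 1)).1
      apply mul_left_cancel₀ h10.ne'
      linear_combination h7 + ((y 0)⁻¹ * Q - P) * h9

theorem dim (A : Finset ℕ) (hA1 : ∀ a ∈ A, 1 ≤ a)
    (gap : ∀ a ∈ A, ∀ b ∈ A, a ≠ b → a + 2 ≤ b ∨ b + 2 ≤ a)
    (hsum : 1 < ∑ a ∈ A, (1 : ℝ) / (a + 1)) :
    (1 / 2 : ENNReal) < dimH {x : ℝ | ∃ a : ℕ → ℕ, (∀ j, a j ∈ A) ∧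
          Tendsto (fun n : ℕ =>
            ((List.map (fun j : ℕ => (!![(a j : ℝ), 1; 1, 0] : Matrix (Fin 2) (Fin 2) ℝ))
                (List.range (n + 1))).prod 0 0) /
            ((List.map (fun j : ℕ => (!![(a j : ℝ), 1; 1, 0] : Matrix (Fin 2) (Fin 2) ℝ))
                (List.range (n + 1))).prod 1 0)) atTop (𝓝 x)} := by
  apply dim_gt A hA1 gap hsum _ (fun y => y⁻¹)
  · intro y y' h1 h2 h3 h4
    have e : y⁻¹ - y'⁻¹ = -(y - y') * (y * y')⁻¹ := by field_simp; ring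
    rw [e, abs_mul, abs_neg, abs_of_pos (show 0 < (y * y')⁻¹ by positivity)]
    have : 1 ≤ (y * y')⁻¹ := by
      rw [one_le_inv₀ (by positivity)]
      nlinarith
    nlinarith [abs_nonneg (y - y')]
  · intro a ha y hy hy2
    refine ⟨a, ha, ?_⟩
    rw [tendsto_iff_dist_tendsto_zero]
    have hlim : Tendsto (fun n : ℕ => 2 * (1 / ((n : ℝ) + 1))) atTop (𝓝 0) := by
      simpa using tendsto_one_div_add_atTop_nhds_zero_nat.const_mul (2 : ℝ)
    refine squeeze_zero (fun _ => dist_nonneg) (fun n => ?_) hlim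
    obtain ⟨P, P', Q, Q', h1, h2, h3, h4, h5, h6, h7⟩ := conv a (fun n => hA1 _ (ha n)) y hy hy2 n
    rw [h1, Real.dist_eq]
    simp only [Matrix.of_apply, Matrix.cons_val', Matrix.cons_val_zero, Matrix.cons_val_one,
      Matrix.cons_val_fin_one]
    have h8 := hy (n + 1)
    have h9 : 0 < Q + Q' * y (n + 1) := by nlinarith [h8.1]
    have h10 : (y 0)⁻¹ = (P + P' * y (n + 1)) / (Q + Q' * y (n + 1)) := by
      rw [eq_div_iff h9.ne', h7]
    have h11 : P / Q - (y 0)⁻¹ = (P * Q' - P' * Q) * (y (n + 1) / (Q * (Q + Q' * y (n + 1)))) := by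
      rw [h10]
      generalize y (n + 1) = z at h9 ⊢
      have hQ : Q ≠ 0 := by linarith
      have hQ2 : Q + Q' * z ≠ 0 := h9.ne'
      rw [div_sub_div _ _ hQ hQ2, mul_div_assoc']
      congr 1
      ring
    rw [h11, abs_mul, h6, one_mul, abs_of_pos (div_pos h8.1 (by positivity)),
      mul_one_div, div_le_div_iff₀ (by positivity) (by positivity)]
    have h12 : 0 ≤ Q' * y (n + 1) := mul_nonneg h3 h8.1.le
    have h13 : (0 : ℝ) ≤ n := by positivity
    nlinarith [h8.1, h8.2]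

end Pool.Agent.H.MP_f5ee21_nt
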